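import Pool.Agent.helper19.HF.SpecE
import Pool.Agent.helper63.HF.CLZ

/-!
# Project HF (MP_bf63dc_nt), row CLF: cliques in samples of four blocks of forms, four different slopes
-/

set_option autoImplicit false

namespace Pool.Agent.HF

open Finset Pool.Agent.AT Pool.Agent.IT

theorem CLF : CLF_stmt := by
  classical
  intro hQ s hs hsinj n η hn hη
  obtain ⟨C, δ, hC, hδ, -, hQ⟩ := hQ (n * 4) (by omega)
  obtain ⟨L, hL1, hL⟩ : ∃ L : ℕ, 1 ≤ L ∧ C * (L : ℝ) ^ (-δ) ≤ η := by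
    have h1 : Filter.Tendsto (fun L : ℕ => C * (L : ℝ) ^ (-δ)) Filter.atTop (nhds (C * 0)) :=
      ((tendsto_rpow_neg_atTop hδ).comp tendsto_natCast_atTop_atTop).const_mul C
    rw [mul_zero] at h1
    obtain ⟨L, h2, h3⟩ := ((h1.eventually (gt_mem_nhds hη)).and
      (Filter.eventually_ge_atTop 1)).exists
    exact ⟨L, h3, h2.le⟩
  obtain ⟨D, hDdef⟩ : ∃ D : ℕ, D = (∏ β, s β) * Nat.factorial (n * 4) := ⟨_, rfl⟩
  have hD : 1 ≤ D := by
    rw [hDdef]
    have h1 := Nat.factorial_pos (n * 4)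
    have h2 : 0 < ∏ β, s β := Finset.prod_pos fun β _ => hs β
    exact Nat.mul_pos h2 h1
  refine ⟨D, L, hD, ?_⟩
  intro R hLR
  have hslP : ∀ p : ℕ, p.Prime → ¬ p ∣ D → ∀ β, ¬ p ∣ s β := by
    intro p _ hpD β hβ
    exact hpD (by rw [hDdef]; exact (hβ.trans (Finset.dvd_prod_of_mem s (mem_univ β))).mul_right _)
  obtain ⟨fm, hfm⟩ : ∃ fm : Fin 4 → ℕ → ℕ × ℤ, fm = fun β u => (s β, 1 + (D : ℤ) * (u : ℕ)) := ⟨_, rfl⟩
  have hfm1 : ∀ β u, (fm β u).1 = s β := fun β u => by rw [hfm]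
  have hfm2 : ∀ β u, (fm β u).2 = 1 + (D : ℤ) * (u : ℕ) := fun β u => by rw [hfm]
  have hfinj : ∀ β u v, fm β u = fm β v → u = v := by
    intro β u v h
    have h1 := congrArg Prod.snd h
    rw [hfm2, hfm2] at h1
    have h2 : (D : ℤ) * (u : ℤ) = (D : ℤ) * (v : ℤ) := by linarith
    have h3 : (D : ℤ) ≠ 0 := by omega
    exact_mod_cast mul_left_cancel₀ h3 h2
  obtain ⟨σ, hσ⟩ : ∃ σ : Fin (n * 4) ≃ Fin n × Fin 4, σ = finProdFinEquiv.symm := ⟨_, rfl⟩
  obtain ⟨F, hFdef⟩ : ∃ F : Fin (n * 4) → Finset (ℕ × ℤ), F = fun i => (range R).image (fm (σ i).2) := ⟨_, rfl⟩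
  have hF : ∀ i, #(F i) = R := by
    intro i
    rw [hFdef]
    dsimp only
    rw [Finset.card_image_of_injective _ (fun u v h => hfinj _ u v h), card_range]
  have h1 := hQ F L hL1 (fun i => by rw [hF]; exact hLR) (by
    intro i x hx
    rw [hFdef] at hx
    obtain ⟨u, -, rfl⟩ := Finset.mem_image.1 hx
    rw [hfm1]
    exact hs _)
  obtain ⟨f, hf⟩ : ∃ f : Om n 4 R → Fin (n * 4) → ℕ × ℤ, f = fun ω i => fm (σ i).2 (ω (σ i).1 (σ i).2 : ℕ) := ⟨_, rfl⟩
  have hadm : ∀ ω, Adm (f ω) := by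
    intro ω
    refine CLZ_adm (n * 4) D (f ω) ?_ (fun _ => 1) (fun i => isCoprime_one_left) ?_
    · intro p hp hpD
      refine ⟨?_, ?_⟩
      · by_contra hlt
        apply hpD
        rw [hDdef]
        exact ((Nat.dvd_factorial hp.pos (not_lt.1 hlt)).mul_left _)
      · intro i
        rw [hf]
        dsimp only
        rw [hfm1]
        exact hslP p hp hpD _
    · intro i
      rw [hf]
      dsimp only
      rw [hfm2]
      exact ⟨_, add_sub_cancel_left _ _⟩
  have h2 : #{ω : Om n 4 R | ¬ ∃ J : Finset (Fin n × Fin 4), (1 / 4 + 1 / 500000) * ((n : ℝ) * (4 : ℕ)) ≤ #J ∧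
    ∀ x ∈ J, ∀ y ∈ J, x.2 ≠ y.2 → Pair (s x.2, 1 + (D : ℤ) * ((ω x.1 x.2 : Fin R) : ℕ)) (s y.2, 1 + (D : ℤ) * ((ω y.1 y.2 : Fin R) : ℕ))} ≤
      #{f ∈ Fintype.piFinset F | Adm f ∧ ¬ Many f} := by
    refine Finset.card_le_card_of_injOn f ?_ ?_
    · intro ω hω
      have hω' := (Finset.mem_filter.1 (Finset.mem_coe.1 hω)).2
      refine Finset.mem_coe.2 (Finset.mem_filter.2 ⟨?_, hadm ω, ?_⟩)
      · rw [Fintype.mem_piFinset]
        intro i
        rw [hFdef, hf]
        exact Finset.mem_image_of_mem _ (Finset.mem_range.2 (ω (σ i).1 (σ i).2).2)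
      · intro hM
        obtain ⟨J, hJ1, hJ2⟩ := CLZ_J (n * 4) (f ω) hM
        have hpair : ∀ i ∈ J, ∀ j ∈ J, f ω i ≠ f ω j → Pair (f ω i) (f ω j) := by
          intro i hi j hj hij
          refine PRT (f ω i) (f ω j) ?_ ?_ hij ?_ (hJ2 i hi j hj)
          · rw [hf]
            dsimp only
            rw [hfm1]
            exact hs _
          · rw [hf]
            dsimp only
            rw [hfm1]
            exact hs _
          · intro p hp
            obtain ⟨m, hm⟩ := hadm ω p hp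
            refine ⟨m, fun t => ?_⟩
            fin_cases t
            · exact hm i
            · exact hm j
        have hpair2 : ∀ x ∈ J.map σ.toEmbedding, ∀ y ∈ J.map σ.toEmbedding,
            fm x.2 (ω x.1 x.2) ≠ fm y.2 (ω y.1 y.2) → Pair (fm x.2 (ω x.1 x.2)) (fm y.2 (ω y.1 y.2)) := by
          intro x hx y hy
          obtain ⟨i, hi, rfl⟩ := Finset.mem_map.1 hx
          obtain ⟨j, hj, rfl⟩ := Finset.mem_map.1 hy
          have := hpair i hi j hj
          rw [hf] at this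
          exact this
        refine hω' ⟨J.map σ.toEmbedding, ?_, ?_⟩
        · rw [Finset.card_map]
          have h3 : ((n * 4 : ℕ) : ℝ) = (n : ℝ) * (4 : ℕ) := by push_cast; ring
          rw [h3] at hJ1
          exact hJ1.le
        · intro x hx y hy hxy
          have hp := hpair2 x hx y hy (by
            intro h
            have h5 := congrArg Prod.fst h
            rw [hfm1, hfm1] at h5
            exact hxy (hsinj h5))
          rw [hfm] at hp
          exact hp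
    · intro ω _ ω' _ h
      funext c d
      have h3 := congrFun h (finProdFinEquiv (c, d))
      have h4 : σ (finProdFinEquiv (c, d)) = (c, d) := by
        rw [hσ]
        exact Equiv.symm_apply_apply _ _
      rw [hf] at h3
      dsimp only at h3
      rw [h4] at h3
      exact Fin.ext (hfinj _ _ _ h3)
  have h3 : ∏ i : Fin (n * 4), (#(F i) : ℝ) = (R : ℝ) ^ (n * 4) := by
    rw [Finset.prod_congr rfl (fun i _ => by rw [hF i]), Finset.prod_const, Finset.card_univ, Fintype.card_fin]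
  rw [h3] at h1
  have hP : (0 : ℝ) ≤ (R : ℝ) ^ (n * 4) := by positivity
  refine (Nat.cast_le.2 h2).trans (h1.trans ?_)
  calc C * (R : ℝ) ^ (n * 4) * (L : ℝ) ^ (-δ) = C * (L : ℝ) ^ (-δ) * (R : ℝ) ^ (n * 4) := by ring
    _ ≤ η * (R : ℝ) ^ (n * 4) := mul_le_mul_of_nonneg_right hL hP

end Pool.Agent.HF
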