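import Pool.Agent.helper84.HF.SpecH

/-!
# MP_07c750 (quantum unique ergodicity, weight 10), project HALF: PART II, the leafwise inequality

`LEA_proof : LEA_stmt` (energy form, all constants explicit) and `LEF_proof : THE_stmt → LEF_stmt` (for sets porous on most scales).
-/

set_option autoImplicit false

open Finset MeasureTheory

namespace Pool.Agent.HF

/-- the union of the cells `[y / 2 ^ N, (y + 1) / 2 ^ N)`, `y ∈ Y` -/
def cellU (N : ℕ) (Y : Finset ℕ) : Set ℝ := ⋃ y ∈ Y, Set.Ico ((y : ℝ) / 2 ^ N) (((y : ℝ) + 1) / 2 ^ N)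

/-- the exponential sum `∑ a_j exp (i π j v / 2)` -/
noncomputable def esum (J : Finset ℤ) (a : ℤ → ℂ) (v : ℝ) : ℂ :=
  ∑ j ∈ J, a j * Complex.exp (Complex.I * ((Real.pi * (j : ℝ) * v / 2 : ℝ) : ℂ))

/-- **Row LEA** (Part II of the page). `Y ⊆ [0, 2 ^ N)`, `J` a finite set of integers in an interval of length `W 2 ^ (N + 2)`, `E(Y)` the additive energy. If `B ≥ 0` and
`|J|³ W 2 ^ (N + 2) E(Y) ≤ B⁴`, or `|J| |Y| ≤ B`, then `∫_S |∑ a_j exp (i π j v / 2)|² dv ≤ 2 ^ (-N) B ∑ |a_j|²` for every subset `S` of the union of the cells of `Y`. -/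
def LEA_stmt : Prop := ∀ (N W : ℕ) (Y : Finset ℕ) (J : Finset ℤ) (c : ℤ) (a : ℤ → ℂ) (B : ℝ) (S : Set ℝ), (∀ y ∈ Y, y < 2 ^ N) →
  (∀ j ∈ J, c ≤ j ∧ j < c + W * 2 ^ (N + 2)) → 0 ≤ B →
  ((J.card : ℝ) ^ 3 * ((W : ℝ) * 2 ^ (N + 2) * (QE Y).card) ≤ B ^ 4 ∨ (J.card : ℝ) * Y.card ≤ B) → S ⊆ cellU N Y →
    ∫ v in S, ‖esum J a v‖ ^ 2 ≤ B / 2 ^ N * ∑ j ∈ J, ‖a j‖ ^ 2

open Classical in
/-- **Row LEF**. The same with the additive energy theorem `THE`: the sets `Y` which are porous on most scales. `K = |J|`: if `K⁴ 2 ^ N ≤ B⁴` and `K³ W 2 ^ (N + 2) 2 ^ (-γ N) |Y|³ ≤ B⁴`. -/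
def LEF_stmt : Prop := ∀ m : ℕ, 2 ^ 17 ≤ m → ∃ (γ : ℝ) (N0 : ℕ), 0 < γ ∧ γ ≤ 1 ∧ ∀ N : ℕ, N0 ≤ N → ∀ (Y : Finset ℕ) (G : ℕ → ℕ → Prop), (∀ u ∈ Y, u < 2 ^ N) →
  (∀ u ∈ Y, 128 * ((Finset.range (N + 1)).filter (fun j => ¬ G u j)).card ≤ N) →
  (∀ j p : ℕ, j + m ≤ N → ((Y.filter (fun u => G u j ∧ px N j u = p)).image (px N (j + m))).card ^ 4 ≤ 2 ^ (3 * m)) →
  ∀ (W : ℕ) (J : Finset ℤ) (c : ℤ) (a : ℤ → ℂ) (B : ℝ) (S : Set ℝ), (∀ j ∈ J, c ≤ j ∧ j < c + W * 2 ^ (N + 2)) → 0 ≤ B →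
  (J.card : ℝ) ^ 4 * 2 ^ N ≤ B ^ 4 →
  (J.card : ℝ) ^ 3 * ((W : ℝ) * 2 ^ (N + 2)) * ((2 : ℝ) ^ (-(γ * N)) * (Y.card : ℝ) ^ 3) ≤ B ^ 4 → S ⊆ cellU N Y →
    ∫ v in S, ‖esum J a v‖ ^ 2 ≤ B / 2 ^ N * ∑ j ∈ J, ‖a j‖ ^ 2

/-! ## The fourth moment -/

/-- the exponential sum over `Y` -/
noncomputable def LEA_T (P : ℕ) [NeZero P] (Y : Finset ℕ) (d : ZMod P) : ℂ := ∑ y ∈ Y, ZMod.stdAddChar (d * (y : ZMod P))

theorem LEA_conj (P : ℕ) [NeZero P] (Y : Finset ℕ) (d : ZMod P) : (starRingEnd ℂ) (LEA_T P Y d) = LEA_T P Y (-d) := by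
  unfold LEA_T
  rw [map_sum]
  refine Finset.sum_congr rfl fun y _ => ?_
  rw [neg_mul, AddChar.map_neg_eq_conj]

theorem LEA_neg (P : ℕ) [NeZero P] (Y : Finset ℕ) (d : ZMod P) : ‖LEA_T P Y (-d)‖ = ‖LEA_T P Y d‖ := by
  rw [← LEA_conj, RCLike.norm_conj]

theorem LEA_prod4 (Y : Finset ℕ) (f g : ℕ → ℂ) :
    ((∑ a ∈ Y, f a) * ∑ b ∈ Y, f b) * ((∑ c ∈ Y, g c) * ∑ e ∈ Y, g e) =
      ∑ q ∈ Y ×ˢ Y ×ˢ Y ×ˢ Y, (f q.1 * f q.2.1) * (g q.2.2.1 * g q.2.2.2) := by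
  rw [Finset.sum_product, Finset.sum_mul, Finset.sum_mul]
  refine Finset.sum_congr rfl fun a _ => ?_
  rw [Finset.sum_product, Finset.mul_sum, Finset.sum_mul]
  refine Finset.sum_congr rfl fun b _ => ?_
  rw [Finset.sum_product, Finset.sum_mul, Finset.mul_sum]
  refine Finset.sum_congr rfl fun c _ => ?_
  rw [Finset.mul_sum, Finset.mul_sum]

theorem LEA_four (N P : ℕ) [NeZero P] (hP : P = 2 ^ (N + 2)) (Y : Finset ℕ) (hY : ∀ y ∈ Y, y < 2 ^ N) :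
    ∑ d : ZMod P, ‖LEA_T P Y d‖ ^ 4 = P * (QE Y).card := by
  have h1 : ∀ d : ZMod P, ((‖LEA_T P Y d‖ ^ 4 : ℝ) : ℂ) =
      ∑ q ∈ Y ×ˢ Y ×ˢ Y ×ˢ Y, ZMod.stdAddChar (d * (((q.1 : ℕ) : ZMod P) + ((q.2.1 : ℕ) : ZMod P) - (((q.2.2.1 : ℕ) : ZMod P) + ((q.2.2.2 : ℕ) : ZMod P)))) := by
    intro d
    have h2 : ((‖LEA_T P Y d‖ ^ 4 : ℝ) : ℂ) =
        ((LEA_T P Y d) * (LEA_T P Y d)) * ((starRingEnd ℂ) (LEA_T P Y d) * (starRingEnd ℂ) (LEA_T P Y d)) := by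
      have h3 := Complex.mul_conj (LEA_T P Y d)
      rw [Complex.normSq_eq_norm_sq] at h3
      have h4 : ((LEA_T P Y d) * (LEA_T P Y d)) * ((starRingEnd ℂ) (LEA_T P Y d) * (starRingEnd ℂ) (LEA_T P Y d)) =
          ((LEA_T P Y d) * (starRingEnd ℂ) (LEA_T P Y d)) * ((LEA_T P Y d) * (starRingEnd ℂ) (LEA_T P Y d)) := by ring
      rw [h4, h3]
      push_cast
      ring
    rw [h2, LEA_conj]
    unfold LEA_T
    rw [LEA_prod4]
    refine Finset.sum_congr rfl fun q _ => ?_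
    rw [← AddChar.map_add_eq_mul, ← AddChar.map_add_eq_mul, ← AddChar.map_add_eq_mul]
    congr 1
    ring
  have h5 : ((∑ d : ZMod P, ‖LEA_T P Y d‖ ^ 4 : ℝ) : ℂ) = ((P * (QE Y).card : ℝ) : ℂ) := by
    rw [Complex.ofReal_sum, Finset.sum_congr rfl fun d _ => h1 d, Finset.sum_comm]
    have h6 : ∀ q ∈ Y ×ˢ Y ×ˢ Y ×ˢ Y, ∑ d : ZMod P, (ZMod.stdAddChar (d * (((q.1 : ℕ) : ZMod P) + ((q.2.1 : ℕ) : ZMod P) - (((q.2.2.1 : ℕ) : ZMod P) + ((q.2.2.2 : ℕ) : ZMod P)))) : ℂ) =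
        if q.1 + q.2.1 = q.2.2.1 + q.2.2.2 then (P : ℂ) else 0 := by
      intro q hq
      rw [AddChar.sum_mulShift _ (ZMod.isPrimitive_stdAddChar P), ZMod.card]
      have hq1 := Finset.mem_product.1 hq
      have hq2 := Finset.mem_product.1 hq1.2
      have hq3 := Finset.mem_product.1 hq2.2
      have ha := hY _ hq1.1
      have hb := hY _ hq2.1
      have hc := hY _ hq3.1
      have he := hY _ hq3.2
      have h2N : 2 ^ (N + 2) = 4 * 2 ^ N := by ring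
      have hiff : (((q.1 : ℕ) : ZMod P) + ((q.2.1 : ℕ) : ZMod P) - (((q.2.2.1 : ℕ) : ZMod P) + ((q.2.2.2 : ℕ) : ZMod P)) = 0) ↔ q.1 + q.2.1 = q.2.2.1 + q.2.2.2 := by
        rw [sub_eq_zero]
        have h7 : (((q.1 : ℕ) : ZMod P) + ((q.2.1 : ℕ) : ZMod P) = ((q.2.2.1 : ℕ) : ZMod P) + ((q.2.2.2 : ℕ) : ZMod P)) ↔ (((q.1 + q.2.1 : ℕ) : ZMod P) = ((q.2.2.1 + q.2.2.2 : ℕ) : ZMod P)) := by
          push_cast
          rfl
        rw [h7, ZMod.natCast_eq_natCast_iff', Nat.mod_eq_of_lt (by omega), Nat.mod_eq_of_lt (by omega)]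
      by_cases h : q.1 + q.2.1 = q.2.2.1 + q.2.2.2
      · rw [if_pos (hiff.2 h), if_pos h]
      · rw [if_neg (fun h' => h (hiff.1 h')), if_neg h]
        exact Nat.cast_zero
    rw [Finset.sum_congr rfl h6, ← Finset.sum_filter, Finset.sum_const, nsmul_eq_mul]
    unfold QE
    push_cast
    ring
  exact_mod_cast h5

/-! ## The sum over `J` -/

theorem LEA_fiber (P W : ℕ) [NeZero P] (J : Finset ℤ) (c : ℤ) (hJ : ∀ j ∈ J, c ≤ j ∧ j < c + W * P) (j : ℤ)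
    (g : ZMod P → ℝ) (hg : ∀ d, 0 ≤ g d) : ∑ k ∈ J, g ((j : ZMod P) - (k : ZMod P)) ≤ W * ∑ d : ZMod P, g d := by
  classical
  have hP : 0 < P := Nat.pos_of_ne_zero (NeZero.ne P)
  have h1 : ∑ k ∈ J, g ((j : ZMod P) - (k : ZMod P)) =
      ∑ d ∈ J.image (fun k : ℤ => (j : ZMod P) - (k : ZMod P)), (J.filter (fun k : ℤ => (j : ZMod P) - (k : ZMod P) = d)).card • g d :=
    Finset.sum_comp g (fun k : ℤ => (j : ZMod P) - (k : ZMod P))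
  rw [h1, Finset.mul_sum]
  refine (Finset.sum_le_sum fun d _ => ?_).trans (Finset.sum_le_sum_of_subset_of_nonneg (Finset.subset_univ _)
    (fun d _ _ => mul_nonneg (Nat.cast_nonneg W) (hg d)))
  rw [nsmul_eq_mul]
  refine mul_le_mul_of_nonneg_right ?_ (hg d)
  have h2 : (J.filter (fun k : ℤ => (j : ZMod P) - (k : ZMod P) = d)).card ≤ (Finset.range W).card := by
    refine Finset.card_le_card_of_injOn (fun k => ((k - c) / (P : ℤ)).toNat) ?_ ?_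
    · intro k hk
      obtain ⟨hk1, -⟩ := Finset.mem_filter.1 (Finset.mem_coe.1 hk)
      obtain ⟨h3, h4⟩ := hJ k hk1
      have hP' : (0 : ℤ) < P := by exact_mod_cast hP
      have h5 : 0 ≤ (k - c) / (P : ℤ) := Int.ediv_nonneg (by linarith) hP'.le
      have h6 : (k - c) / (P : ℤ) < W := by
        refine Int.ediv_lt_of_lt_mul hP' ?_
        linarith
      rw [Finset.mem_coe, Finset.mem_range]
      show ((k - c) / (P : ℤ)).toNat < W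
      omega
    · intro k hk k' hk' he
      obtain ⟨hk1, hk2⟩ := Finset.mem_filter.1 (Finset.mem_coe.1 hk)
      obtain ⟨hk1', hk2'⟩ := Finset.mem_filter.1 (Finset.mem_coe.1 hk')
      have hP' : (0 : ℤ) < P := by exact_mod_cast hP
      have h5 : 0 ≤ (k - c) / (P : ℤ) := Int.ediv_nonneg (by linarith [(hJ k hk1).1]) hP'.le
      have h5' : 0 ≤ (k' - c) / (P : ℤ) := Int.ediv_nonneg (by linarith [(hJ k' hk1').1]) hP'.le
      have h6 : (k - c) / (P : ℤ) = (k' - c) / (P : ℤ) := by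
        have : ((k - c) / (P : ℤ)).toNat = ((k' - c) / (P : ℤ)).toNat := he
        omega
      have h7 : ((k - c : ℤ) : ZMod P) = ((k' - c : ℤ) : ZMod P) := by
        have : (k : ZMod P) = (k' : ZMod P) := by
          rw [← hk2] at hk2'
          exact (sub_right_injective hk2').symm
        push_cast
        rw [this]
      have h8 : (k - c) % (P : ℤ) = (k' - c) % (P : ℤ) := (ZMod.intCast_eq_intCast_iff' _ _ _).1 h7
      have h9 := Int.emod_add_mul_ediv (k - c) P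
      have h9' := Int.emod_add_mul_ediv (k' - c) P
      rw [h6, h8] at h9
      linarith
  rw [Finset.card_range] at h2
  exact_mod_cast h2

theorem LEA_cube (J : Finset ℤ) (f : ℤ → ℝ) : (∑ k ∈ J, f k) ^ 4 ≤ (J.card : ℝ) ^ 3 * ∑ k ∈ J, f k ^ 4 := by
  have h1 := sq_sum_le_card_mul_sum_sq (s := J) (f := f)
  have h2 := sq_sum_le_card_mul_sum_sq (s := J) (f := fun k => f k ^ 2)
  have h3 : 0 ≤ (∑ k ∈ J, f k) ^ 2 := sq_nonneg _
  have h4 : 0 ≤ ∑ k ∈ J, f k ^ 2 := Finset.sum_nonneg fun k _ => sq_nonneg _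
  have h5 : ∑ k ∈ J, (f k ^ 2) ^ 2 = ∑ k ∈ J, f k ^ 4 := Finset.sum_congr rfl fun k _ => by ring
  rw [h5] at h2
  calc (∑ k ∈ J, f k) ^ 4 = ((∑ k ∈ J, f k) ^ 2) ^ 2 := by ring
    _ ≤ ((J.card : ℝ) * ∑ k ∈ J, f k ^ 2) ^ 2 := pow_le_pow_left₀ h3 h1 2
    _ = (J.card : ℝ) ^ 2 * (∑ k ∈ J, f k ^ 2) ^ 2 := by ring
    _ ≤ (J.card : ℝ) ^ 2 * ((J.card : ℝ) * ∑ k ∈ J, f k ^ 4) := mul_le_mul_of_nonneg_left h2 (by positivity)
    _ = _ := by ring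

theorem LEA_row (N W P : ℕ) [NeZero P] (hP : P = 2 ^ (N + 2)) (Y : Finset ℕ) (hY : ∀ y ∈ Y, y < 2 ^ N) (J : Finset ℤ) (c : ℤ)
    (hJ : ∀ j ∈ J, c ≤ j ∧ j < c + W * 2 ^ (N + 2)) (B : ℝ) (hB0 : 0 ≤ B)
    (hB : (J.card : ℝ) ^ 3 * ((W : ℝ) * 2 ^ (N + 2) * (QE Y).card) ≤ B ^ 4) (j : ℤ) :
    ∑ k ∈ J, ‖LEA_T P Y ((j : ZMod P) - (k : ZMod P))‖ ≤ B := by
  have hP' : (P : ℝ) = 2 ^ (N + 2) := by rw [hP]; push_cast; ring
  have hJ' : ∀ j ∈ J, c ≤ j ∧ j < c + W * P := by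
    intro j hj
    have := hJ j hj
    rw [hP]
    push_cast
    exact this
  have h1 := LEA_cube J (fun k : ℤ => ‖LEA_T P Y ((j : ZMod P) - (k : ZMod P))‖)
  have h2 := LEA_fiber P W J c hJ' j (fun d => ‖LEA_T P Y d‖ ^ 4) (fun d => by positivity)
  rw [LEA_four N P hP Y hY, hP'] at h2
  refine le_of_pow_le_pow_left₀ (n := 4) (by norm_num) hB0 (h1.trans (le_trans ?_ hB))
  refine mul_le_mul_of_nonneg_left ?_ (by positivity)
  refine h2.trans (le_of_eq ?_)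
  ring

/-! ## Schur -/

theorem LEA_schur (P : ℕ) [NeZero P] (Y : Finset ℕ) (J : Finset ℤ) (b : ℤ → ℂ) (B : ℝ)
    (hB : ∀ j ∈ J, ∑ k ∈ J, ‖LEA_T P Y ((j : ZMod P) - (k : ZMod P))‖ ≤ B) :
    ∑ y ∈ Y, ‖∑ j ∈ J, b j * ZMod.stdAddChar ((j : ZMod P) * (y : ZMod P))‖ ^ 2 ≤ B * ∑ j ∈ J, ‖b j‖ ^ 2 := by
  have h1 : ((∑ y ∈ Y, ‖∑ j ∈ J, b j * ZMod.stdAddChar ((j : ZMod P) * (y : ZMod P))‖ ^ 2 : ℝ) : ℂ) =
      ∑ j ∈ J, ∑ k ∈ J, (b j * (starRingEnd ℂ) (b k)) * LEA_T P Y ((j : ZMod P) - (k : ZMod P)) := by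
    rw [Complex.ofReal_sum]
    have h2 : ∀ y ∈ Y, ((‖∑ j ∈ J, b j * ZMod.stdAddChar ((j : ZMod P) * (y : ZMod P))‖ ^ 2 : ℝ) : ℂ) =
        ∑ j ∈ J, ∑ k ∈ J, (b j * (starRingEnd ℂ) (b k)) * ZMod.stdAddChar (((j : ZMod P) - (k : ZMod P)) * (y : ZMod P)) := by
      intro y _
      rw [← Complex.normSq_eq_norm_sq, ← Complex.mul_conj, map_sum, Finset.sum_mul_sum]
      refine Finset.sum_congr rfl fun j _ => Finset.sum_congr rfl fun k _ => ?_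
      rw [map_mul (starRingEnd ℂ), ← AddChar.map_neg_eq_conj, sub_mul, sub_eq_add_neg, AddChar.map_add_eq_mul]
      ring
    rw [Finset.sum_congr rfl h2, Finset.sum_comm]
    refine Finset.sum_congr rfl fun j _ => ?_
    rw [Finset.sum_comm]
    refine Finset.sum_congr rfl fun k _ => ?_
    unfold LEA_T
    rw [Finset.mul_sum]
  have h3 : 0 ≤ ∑ y ∈ Y, ‖∑ j ∈ J, b j * ZMod.stdAddChar ((j : ZMod P) * (y : ZMod P))‖ ^ 2 :=
    Finset.sum_nonneg fun y _ => by positivity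
  have h4 : ∑ y ∈ Y, ‖∑ j ∈ J, b j * ZMod.stdAddChar ((j : ZMod P) * (y : ZMod P))‖ ^ 2 ≤
      ∑ j ∈ J, ∑ k ∈ J, (‖b j‖ * ‖b k‖) * ‖LEA_T P Y ((j : ZMod P) - (k : ZMod P))‖ := by
    rw [← abs_of_nonneg h3, ← Real.norm_eq_abs, ← Complex.norm_real, h1]
    refine (norm_sum_le _ _).trans (Finset.sum_le_sum fun j _ => (norm_sum_le _ _).trans (Finset.sum_le_sum fun k _ => ?_))
    rw [norm_mul, norm_mul, RCLike.norm_conj]
  have h5 : ∀ j ∈ J, ∀ k ∈ J, (‖b j‖ * ‖b k‖) * ‖LEA_T P Y ((j : ZMod P) - (k : ZMod P))‖ ≤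
      (‖b j‖ ^ 2 / 2) * ‖LEA_T P Y ((j : ZMod P) - (k : ZMod P))‖ + (‖b k‖ ^ 2 / 2) * ‖LEA_T P Y ((j : ZMod P) - (k : ZMod P))‖ := by
    intro j _ k _
    rw [← add_mul]
    refine mul_le_mul_of_nonneg_right ?_ (norm_nonneg _)
    nlinarith [sq_nonneg (‖b j‖ - ‖b k‖)]
  refine h4.trans ((Finset.sum_le_sum fun j hj => Finset.sum_le_sum fun k hk => h5 j hj k hk).trans ?_)
  simp only [Finset.sum_add_distrib]
  have h6 : ∑ j ∈ J, ∑ k ∈ J, (‖b j‖ ^ 2 / 2) * ‖LEA_T P Y ((j : ZMod P) - (k : ZMod P))‖ ≤ ∑ j ∈ J, (‖b j‖ ^ 2 / 2) * B := by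
    refine Finset.sum_le_sum fun j hj => ?_
    rw [← Finset.mul_sum]
    exact mul_le_mul_of_nonneg_left (hB j hj) (by positivity)
  have h7 : ∑ j ∈ J, ∑ k ∈ J, (‖b k‖ ^ 2 / 2) * ‖LEA_T P Y ((j : ZMod P) - (k : ZMod P))‖ ≤ ∑ k ∈ J, (‖b k‖ ^ 2 / 2) * B := by
    rw [Finset.sum_comm]
    refine Finset.sum_le_sum fun k hk => ?_
    rw [← Finset.mul_sum]
    refine mul_le_mul_of_nonneg_left (le_trans (le_of_eq ?_) (hB k hk)) (by positivity)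
    refine Finset.sum_congr rfl fun j _ => ?_
    rw [← LEA_neg, neg_sub]
  have h8 : ∑ j ∈ J, (‖b j‖ ^ 2 / 2) * B = B * (∑ j ∈ J, ‖b j‖ ^ 2) / 2 := by
    rw [← Finset.sum_mul, ← Finset.sum_div]
    ring
  rw [h8] at h6 h7
  linarith

/-- the trivial bound -/
theorem LEA_triv (P : ℕ) [NeZero P] (Y : Finset ℕ) (J : Finset ℤ) (j : ℤ) :
    ∑ k ∈ J, ‖LEA_T P Y ((j : ZMod P) - (k : ZMod P))‖ ≤ (J.card : ℝ) * Y.card := by
  have h1 : ∀ d : ZMod P, ‖LEA_T P Y d‖ ≤ Y.card := by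
    intro d
    unfold LEA_T
    refine (norm_sum_le _ _).trans ?_
    have h2 : ∀ y ∈ Y, ‖(ZMod.stdAddChar (d * (y : ZMod P)) : ℂ)‖ ≤ 1 := fun y _ => le_of_eq (AddChar.norm_apply _ _)
    refine (Finset.sum_le_sum h2).trans ?_
    rw [Finset.sum_const, nsmul_eq_mul, mul_one]
  refine (Finset.sum_le_sum fun k _ => h1 _).trans ?_
  rw [Finset.sum_const, nsmul_eq_mul]

/-! ## The integral -/

theorem LEA_exp (N : ℕ) (P : ℕ) [NeZero P] (hP : P = 2 ^ (N + 2)) (j : ℤ) (y : ℕ) (s : ℝ) :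
    Complex.exp (Complex.I * ((Real.pi * (j : ℝ) * ((y : ℝ) / 2 ^ N + s) / 2 : ℝ) : ℂ)) =
      Complex.exp (Complex.I * ((Real.pi * (j : ℝ) * s / 2 : ℝ) : ℂ)) * ZMod.stdAddChar ((j : ZMod P) * (y : ZMod P)) := by
  have h1 : (j : ZMod P) * (y : ZMod P) = ((j * y : ℤ) : ZMod P) := by push_cast; rfl
  rw [h1, ZMod.stdAddChar_coe, ← Complex.exp_add, hP]
  congr 1
  push_cast
  have h2 : (2 : ℂ) ^ N ≠ 0 := pow_ne_zero _ two_ne_zero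
  rw [pow_add]
  field_simp
  ring

theorem LEA_cont (J : Finset ℤ) (a : ℤ → ℂ) : Continuous fun v : ℝ => ‖esum J a v‖ ^ 2 := by
  unfold esum
  fun_prop

theorem LEA_cell (N : ℕ) (f : ℝ → ℝ) (y : ℕ) :
    ∫ v in Set.Ico ((y : ℝ) / 2 ^ N) (((y : ℝ) + 1) / 2 ^ N), f v = ∫ s in (0 : ℝ)..(1 / 2 ^ N), f ((y : ℝ) / 2 ^ N + s) := by
  have h0 : (0 : ℝ) < 2 ^ N := by positivity
  rw [integral_Ico_eq_integral_Ioc, ← intervalIntegral.integral_of_le (by gcongr; linarith), intervalIntegral.integral_comp_add_left]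
  congr 1
  · ring
  · ring

theorem LEA_bound (N P : ℕ) [NeZero P] (hP : P = 2 ^ (N + 2)) (Y : Finset ℕ) (J : Finset ℤ) (a : ℤ → ℂ) (B : ℝ)
    (hB : ∀ j ∈ J, ∑ k ∈ J, ‖LEA_T P Y ((j : ZMod P) - (k : ZMod P))‖ ≤ B) (S : Set ℝ) (hS : S ⊆ cellU N Y) :
    ∫ v in S, ‖esum J a v‖ ^ 2 ≤ B / 2 ^ N * ∑ j ∈ J, ‖a j‖ ^ 2 := by
  have h0 : (0 : ℝ) < 2 ^ N := by positivity
  have hc := LEA_cont J a
  have hint : ∀ y ∈ Y, IntegrableOn (fun v => ‖esum J a v‖ ^ 2) (Set.Ico ((y : ℝ) / 2 ^ N) (((y : ℝ) + 1) / 2 ^ N)) := by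
    intro y _
    exact (hc.integrableOn_Icc (a := (y : ℝ) / 2 ^ N) (b := ((y : ℝ) + 1) / 2 ^ N)).mono_set Set.Ico_subset_Icc_self
  have hU : ∫ v in cellU N Y, ‖esum J a v‖ ^ 2 =
      ∑ y ∈ Y, ∫ v in Set.Ico ((y : ℝ) / 2 ^ N) (((y : ℝ) + 1) / 2 ^ N), ‖esum J a v‖ ^ 2 := by
    unfold cellU
    refine integral_biUnion_finset Y (fun y _ => measurableSet_Ico) ?_ hint
    intro y _ y' _ hne
    rw [Function.onFun, Set.disjoint_left]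
    rintro v ⟨hv1, hv2⟩ ⟨hv3, hv4⟩
    rw [div_le_iff₀ h0] at hv1 hv3
    rw [lt_div_iff₀ h0] at hv2 hv4
    have h1 : (y : ℝ) < y' + 1 := by linarith
    have h2 : (y' : ℝ) < y + 1 := by linarith
    have h3 : y < y' + 1 := by exact_mod_cast h1
    have h4 : y' < y + 1 := by exact_mod_cast h2
    exact hne (by omega)
  have hUint : IntegrableOn (fun v => ‖esum J a v‖ ^ 2) (cellU N Y) := by
    unfold cellU
    exact integrableOn_finset_iUnion.2 hint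
  have hle : ∫ v in S, ‖esum J a v‖ ^ 2 ≤ ∫ v in cellU N Y, ‖esum J a v‖ ^ 2 := by
    refine setIntegral_mono_set hUint (Filter.Eventually.of_forall fun v => by positivity) (LE.le.eventuallyLE hS)
  refine hle.trans ?_
  rw [hU, Finset.sum_congr rfl fun y _ => LEA_cell N (fun v => ‖esum J a v‖ ^ 2) y]
  have hci : ∀ y ∈ Y, IntervalIntegrable (fun s : ℝ => ‖esum J a ((y : ℝ) / 2 ^ N + s)‖ ^ 2) volume 0 (1 / 2 ^ N) := by
    intro y _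
    exact (hc.comp (continuous_const.add continuous_id)).intervalIntegrable _ _
  rw [← intervalIntegral.integral_finsetSum hci]
  have hpt : ∀ s ∈ Set.Icc (0 : ℝ) (1 / 2 ^ N), ∑ y ∈ Y, ‖esum J a ((y : ℝ) / 2 ^ N + s)‖ ^ 2 ≤ B * ∑ j ∈ J, ‖a j‖ ^ 2 := by
    intro s _
    have h1 := LEA_schur P Y J (fun j => a j * Complex.exp (Complex.I * ((Real.pi * (j : ℝ) * s / 2 : ℝ) : ℂ))) B hB
    have h2 : ∀ j ∈ J, ‖a j * Complex.exp (Complex.I * ((Real.pi * (j : ℝ) * s / 2 : ℝ) : ℂ))‖ ^ 2 = ‖a j‖ ^ 2 := by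
      intro j _
      rw [norm_mul, mul_comm Complex.I, Complex.norm_exp_ofReal_mul_I, mul_one]
    rw [Finset.sum_congr rfl h2] at h1
    refine le_trans (le_of_eq ?_) h1
    refine Finset.sum_congr rfl fun y _ => ?_
    have h3 : esum J a ((y : ℝ) / 2 ^ N + s) =
        ∑ j ∈ J, a j * Complex.exp (Complex.I * ((Real.pi * (j : ℝ) * s / 2 : ℝ) : ℂ)) * ZMod.stdAddChar ((j : ZMod P) * (y : ZMod P)) := by
      unfold esum
      refine Finset.sum_congr rfl fun j _ => ?_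
      rw [LEA_exp N P hP, ← mul_assoc]
    rw [h3]
  have hmono := intervalIntegral.integral_mono_on (μ := volume) (a := (0 : ℝ)) (b := 1 / 2 ^ N) (by positivity)
    (f := fun s => ∑ y ∈ Y, ‖esum J a ((y : ℝ) / 2 ^ N + s)‖ ^ 2) (g := fun _ => B * ∑ j ∈ J, ‖a j‖ ^ 2)
    ((continuous_finsetSum Y fun y _ => hc.comp (continuous_const.add continuous_id)).intervalIntegrable _ _)
    (continuous_const.intervalIntegrable _ _) hpt
  refine hmono.trans (le_of_eq ?_)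
  rw [intervalIntegral.integral_const, smul_eq_mul, sub_zero]
  ring

theorem LEA_proof : LEA_stmt := by
  intro N W Y J c a B S hY hJ hB0 hB hS
  haveI : NeZero (2 ^ (N + 2)) := ⟨by positivity⟩
  rcases hB with hB | hB
  · exact LEA_bound N (2 ^ (N + 2)) rfl Y J a B (fun j _ => LEA_row N W _ rfl Y hY J c hJ B hB0 hB j) S hS
  · exact LEA_bound N (2 ^ (N + 2)) rfl Y J a B (fun j _ => (LEA_triv _ Y J j).trans hB) S hS

theorem LEF_proof (hTHE : THE_stmt) : LEF_stmt := by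
  intro m hm
  obtain ⟨γ, N0, hγ, hγ1, h⟩ := hTHE m hm
  refine ⟨γ, N0, hγ, hγ1, ?_⟩
  intro N hN Y G hY hP1 hP2 W J c a B S hJ hB0 hB1 hB2 hS
  refine LEA_proof N W Y J c a B S hY hJ hB0 ?_ hS
  rcases le_or_gt (2 ^ N) (Y.card ^ 4) with hc | hc
  · left
    have h1 := h N hN Y G hY hc hP1 hP2
    refine le_trans ?_ hB2
    rw [← mul_assoc]
    exact mul_le_mul_of_nonneg_left h1 (by positivity)
  · right
    have hc' : (Y.card : ℝ) ^ 4 ≤ 2 ^ N := by exact_mod_cast hc.le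
    refine le_of_pow_le_pow_left₀ (n := 4) (by norm_num) hB0 (le_trans ?_ hB1)
    rw [mul_pow]
    exact mul_le_mul_of_nonneg_left hc' (by positivity)

end Pool.Agent.HF
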